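import Pool.Agent.U74.BCC.Bost
import Pool.Agent.U670.GEEx

/-!
# The Bost conjecture with coefficients for groups `GE_2(A)` and for Danielewski surfaces

`BostClass C` says that the class `C` of groups has the closure properties which are known for the class of
the groups all of whose countable subgroups satisfy the Bost conjecture with `C*`-algebra coefficients
(as discrete groups): subgroups, and groups acting on trees with stabilizers in `C` (Paravicini); virtually
solvable groups and `GL_2(K)` for all fields `K`, since a-T-menable groups satisfy the conjecture
(Lafforgue) and the countable subgroups of `GL_2(K)` are a-T-menable (Guentner, Higson, Weinberger). It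
seems not to be known that the class is closed under extensions.

* (1) `GE_2(A)`, the group generated by the elementary and invertible diagonal matrices, is in `C` for
  each algebra `A` over a field `K` with a degree function (`deg (x y) = deg x + deg y`,
  `deg (x + y) ≤ max (deg x, deg y)`, and the elements of degree zero are those of `K`), commutative or
  not. Examples: free algebras, Weyl algebras, enveloping algebras of Lie algebras, polynomial rings.
* (2) In particular for free algebras.
* (3) For a field `K` and a polynomial `P` over `K`, `surfaceGroup P` is the group of automorphisms of
  the coordinate ring `K[x, y, z] / (x y - P(z))` of the Danielewski surface generated by the linear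
  automorphisms (`z ↦ m z + n`, and `x`, `y` are multiplied by constants or interchanged up to constants)
  and the triangular automorphisms (`x ↦ l x`, `z ↦ m z + q(x)`). By a theorem of Makar-Limanov (1990)
  this is the group of all automorphisms of the surface over `ℂ` (not used here). For every field `K` and
  every `P` of degree at least three the group `surfaceGroup P` is in `C`.

Outline of the proof. The group `GE_2(A)` is contained in a group which acts on a tree with stabilizers
which embed in `GL_2(K)` and in the group of the upper triangular matrices over `A` with diagonal entries
in `K`, which is solvable. The tree is constructed from level functions in `U670`. The group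
`surfaceGroup P` acts on the tree of the cosets of the groups of the linear and of the triangular
automorphisms, both of which are solvable; the level functions are the degrees in `z` of the images of
`x` and `y` in `K((x))[z]` (`U74.DS`).
-/

set_option autoImplicit false

namespace Pool.Agent.Results.MP_566e43_al.TwoDimensionalGroups

open Pool.Agent.U74.Bost (BostClass)
open Pool.Agent.U670.GE (IsDegree GE2)

/-- the equation `x y - P(z)` -/
noncomputable def equation {K : Type} [Field K] (P : Polynomial K) : MvPolynomial (Fin 3) K :=
  MvPolynomial.X 0 * MvPolynomial.X 1 - Polynomial.aeval (MvPolynomial.X 2) P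

/-- the coordinate ring `K[x, y, z] / (x y - P(z))` of the Danielewski surface -/
def Surface {K : Type} [Field K] (P : Polynomial K) : Type :=
  MvPolynomial (Fin 3) K ⧸ Ideal.span {equation P}

section

variable {K : Type} [Field K] {P : Polynomial K}

/-- the ring structure of the quotient -/
noncomputable instance : CommRing (Surface P) :=
  inferInstanceAs (CommRing (MvPolynomial (Fin 3) K ⧸ Ideal.span {equation P}))

/-- the `K`-algebra structure of the quotient -/
noncomputable instance : Algebra K (Surface P) :=
  inferInstanceAs (Algebra K (MvPolynomial (Fin 3) K ⧸ Ideal.span {equation P}))

/-- the coordinate functions `x = coord 0`, `y = coord 1`, `z = coord 2` -/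
noncomputable def coord (i : Fin 3) : Surface P :=
  Ideal.Quotient.mk (Ideal.span {equation P}) (MvPolynomial.X i)

/-- the group of the automorphisms of the coordinate ring -/
abbrev AutSurface {K : Type} [Field K] (P : Polynomial K) : Type := Surface P ≃ₐ[K] Surface P

/-- the automorphism `g` is linear: `z ↦ m z + n`, and `x ↦ l x`, `y ↦ b y` or `x ↦ l y`, `y ↦ b x` -/
def IsLinear (g : AutSurface P) : Prop :=
  ∃ (l b m : Kˣ) (n : K), g (coord 2) = (m : K) • coord 2 + algebraMap K _ n ∧
    ((g (coord 0) = (l : K) • coord 0 ∧ g (coord 1) = (b : K) • coord 1) ∨
      (g (coord 0) = (l : K) • coord 1 ∧ g (coord 1) = (b : K) • coord 0))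

/-- the automorphism `g` is triangular: `x ↦ l x`, `z ↦ m z + q(x)` -/
def IsTriangular (g : AutSurface P) : Prop :=
  ∃ (l m : Kˣ) (q : Polynomial K), g (coord 0) = (l : K) • coord 0 ∧
    g (coord 2) = (m : K) • coord 2 + Polynomial.aeval (coord 0) q

variable (P) in
/-- the group generated by the linear and the triangular automorphisms of the surface -/
noncomputable def surfaceGroup : Subgroup (AutSurface P) :=
  Subgroup.closure {g | IsLinear g ∨ IsTriangular g}

/-- the definitions agree with those of the library -/
theorem surfaceGroup_eq : surfaceGroup P = (U74.DS.aG P ⊔ U74.DS.bG P : Subgroup (U74.DS.Au P)) := by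
  apply le_antisymm
  · rw [surfaceGroup, Subgroup.closure_le]
    rintro g (hg | hg)
    · exact Subgroup.mem_sup_left (S := U74.DS.aG P) (T := U74.DS.bG P) hg
    · exact Subgroup.mem_sup_right (S := U74.DS.aG P) (T := U74.DS.bG P) hg
  · refine sup_le (a := U74.DS.aG P) (b := U74.DS.bG P) ?_ ?_
    · intro g hg
      exact Subgroup.subset_closure (Or.inl hg)
    · intro g hg
      exact Subgroup.subset_closure (Or.inr hg)

end

/-- Let `C` be a class of groups with the closure properties `BostClass C`. (1) `GE_2(A)` is in `C` for
each algebra `A` over a field with a degree function. (2) In particular for free algebras. (3) For every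
field `K` and every polynomial `P` over `K` of degree at least three the group of automorphisms of the
surface `x y = P(z)` generated by the linear and the triangular automorphisms is in `C`. -/
theorem result (C : ∀ (G : Type) [Group G], Prop) (hC : BostClass C) :
    (∀ (K A : Type) [Field K] [Ring A] [Algebra K A] (deg : A → ℕ), IsDegree K A deg → C ↥(GE2 A)) ∧
    (∀ (K X : Type) [Field K], C ↥(GE2 (FreeAlgebra K X))) ∧
    ∀ (K : Type) [Field K] (P : Polynomial K), 3 ≤ P.natDegree → C ↥(surfaceGroup P) := by
  refine ⟨fun K A _ _ _ deg h => U74.Bost.ge2_c hC h, fun K X _ =>
    U74.Bost.ge2_c hC (U670.GE.deg_freeAlgebra K X), ?_⟩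
  intro K _ P hP
  rw [surfaceGroup_eq]
  exact U74.Bost.ds_c hC hP

end Pool.Agent.Results.MP_566e43_al.TwoDimensionalGroups
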